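import Pool.Agent.NH56.MR.Main

set_option autoImplicit false

/-! # The motivic monodromy conjecture at the origin for all ideals with a factor whose blow-up is a
# principalization, and for the ideals which are built from them

Let `I_t`, `t ∈ T`, be ideals of `ℂ[x_1, …, x_n]` such that the blow-up `φ : Y → ℂ ^ n` along one of them,
`I_s`, is smooth and a principalization of their product. Then the strong form of the motivic monodromy
conjecture at the origin is true for all products `∏ t, I_t ^ a_t` with `a_s > 0`.

So it is true for a cofinal class of ideals: for every ideal `I` there is an ideal `K`, with
`V(K) ⊆ V(I)`, such that it is true for `I ^ a K ^ b`, for all `a ≥ 0` and `b ≥ 1`. Indeed, by Hironaka's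
theorem there is a principalization `φ : Y → ℂ ^ n` of `I` which is a sequence of blow-ups of smooth
centres over `V(I)`, there is an effective exceptional divisor `F` on `Y` such that `- F` is ample for `φ`,
and `φ` is the blow-up along `K = φ_* O(- m F)`, `m` large, and `K O_Y = O(- m F)` (Hironaka's theorem and
these facts are not formalised).

The class `MR` is the least class of ideals which contains these products, all non-zero ideals of
`ℂ[x, y]`, the powers `(x ^ m)`, the ideals of `ℂ[x₀, x₁, x₂]` generated by forms of the same degree, three
of which are algebraically independent, the ideals generated by forms of the same degree without a
common zero outside the origin (the class `ML` of `PowersOfForms`), and which is closed under sums and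
products in disjoint sets of variables, under `h ∏_t (f_{t, j})_j ^ a_t ↦ h ∏_t (∑_j y_{t, j} f_{t, j}) ^ a_t`
with new variables `y_{t, j}`, and under powers of principal ideals.

The proof: if `Y` is the blow-up along `I_s` then `Y` is embedded into the product of the affine space
and of the projective space of the generators of `I_s`, so that at a general point of each component
`E` of the zeros of the product on `Y` there are formal coordinates, one of them the equation of `E`
and the others polynomials in `x` or quotients of generators of `I_s` (`isRees_of_unramified`): all `E` are
Rees divisors of `∏ t, I_t ^ a_t`. At such a point a functional equation of the ideal can be compared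
along `E` with powers of the equation of `E` (`rees_prod`); so `- ν / N` is a root of the local
Bernstein-Sato polynomial, and it is forced: it is a zero of `B(0, s)` for all the functional equations
with a polynomial `B(x, s)` in place of `b(s)` (`sf_of_local`). The series of the volumes of the sets
`ord ≥ e` has the same denominators (`tail_strata`), because the arcs with the origin `0` have the
volume `1`; with this the induction for the closure under the operations is as in `PowersOfForms`. -/

namespace Pool.Agent.Results.MP_4e5fcd_ag.BlowUpPrincipalizations

open MvPolynomial Pool.Agent.W574.MO Pool.Agent.W574.RO Pool.Agent.Y229 Pool.Agent.NH56.MR

/-- **The motivic monodromy conjecture at the origin, in the strong form, for the ideals of the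
class `MR`.** Let `I = (f_j)` be the ideal of the family `A`, in `n` variables, let it be in the class
`MR`, and let `Z` be its local motivic zeta function at the origin,
normalized such that the arcs with the origin `0` have the volume `1`. Then `L⁻ⁿ Z` lies in the ring
generated by `M[T]` and the series `1 / (1 - L⁻ᵐ Tᵃ)`, `a, m ≥ 1`, such that `-m/a` is a root of all the
polynomials `b` which satisfy the functional equation of Budur, Mustata and Saito for `f_1, ..., f_r`
with differential operators with formal power series coefficients at the origin, in particular of
the local Bernstein-Sato polynomial of the ideal `I` at the origin. -/
theorem result {M : Type} [CommRing M] (L : Mˣ) (A : Fam) (Z : PowerSeries M) (h : MR L A Z) :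
    PowerSeries.C ((L⁻¹ ^ Nat.card A.σ : Mˣ) : M) * Z ∈
      DenRing L (fun a m => ∀ b : Polynomial ℂ, IsLocalBI A.f b →
        b.eval (-(m : ℂ) / a) = 0) :=
  mr_ideal A Z h _

end Pool.Agent.Results.MP_4e5fcd_ag.BlowUpPrincipalizations
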