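import Pool.Agent.NH52.CI.FatC
import Pool.Agent.NH52.CI.Drop
import Pool.Agent.NH52.CI.Add
import Pool.Agent.NH52.CI.Uni
import Pool.Agent.NH52.CI.Str
import Pool.Agent.NH52.CI.Lin
import Pool.Agent.NH52.CI.For
import Pool.Agent.NH52.CI.Alg
import Pool.Agent.NH52.CI.Tra
import Pool.Agent.NH52.CI.Com
import Pool.Agent.NH52.CI.Ray
import Pool.Agent.NH52.CI.Den
import Pool.Agent.NH52.CI.Mrt
import Pool.Agent.NH52.CI.Fat

set_option autoImplicit false

/-! # The motivic monodromy conjecture at the origin: formal isomorphisms and cones

Let `CL` be the least class of germs of ideals at the origin, together with their local motivic zeta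
functions, with the following properties (`Pool/Agent/NH52/CI/Cls.lean`):

* it contains the class `ML` of the file `PowersOfForms` (all non-zero ideals of `ℂ[x, y]`, the ideals
  of `ℂ[x₀, x₁, x₂]` generated by forms of the same degree, three of which are algebraically
  independent, ...), the ideals generated by monomials, in any number of variables (`mono`), and the
  semi-quasihomogeneous ideals of finite colength in any number of variables (`semi`);
* **formal isomorphisms** (`iso`): if two germs of ideals `(f_j)` and `(g_k)` become equal in the ring
  of formal power series after a formal change of the coordinates, and if one of them is in the class,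
  so is the other one; the numbers of generators may be different;
* **cones** (`cone`), in all dimensions and over base loci of all dimensions: if `I` is generated by
  forms of the same degree in `x₀, …, xₙ`, `n + 1` of which are algebraically independent, and if the
  germs on `Pⁿ` of the ideal sheaf which they define are in the class, then the germ of `I` is in the
  class;
* sums and products in disjoint sets of variables, powers of principal ideals, general members
  `h(x) ∏_t (∑_j y_{t, j} f_{t, j}(x)) ^ a_t` of linear systems (`sum`, `mul`, `pow`, `form`).

The theorem is the motivic monodromy conjecture at the origin for all these germs, in the strong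
form: all the poles are roots of the local Bernstein-Sato polynomial of the ideal.

For example, let `X ⊂ Pⁿ` be a smooth projective variety of any dimension whose ideal is generated
in degrees less than `d`, and let `I` be the ideal which is generated by the forms of degree `d` which
vanish on `X`, or vanish on `X` of order `k` (if this ideal is generated in degrees less than `d`);
these are the cones over the (fat) smooth base schemes. This is the second part of the theorem: all
the poles, which are `-(n + 1) / d` and `-c / k`, `c` the codimension of `X`, are roots. Other examples
are the ideals generated by forms whose base scheme is locally, in formal coordinates, the zero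
scheme of a monomial ideal, or of an ideal in two of the coordinates; or whose base points are
isolated and semi-quasihomogeneous; and the iterated cones.

Method. The functional equations of an ideal `(f_j)` and of the hypersurface `∑_j y_j f_j = 0` near
the origin correspond to each other, with the factor `s + 1` (`S_UNI`, `S_STR`; theorem of Mustata, in
a local form). If `(f_j)` and `(g_k)` become equal in formal coordinates, then the two hypersurfaces
`∑_j y_j f_j + ∑_k z_k · 0` and `∑_j y_j · 0 + ∑_k z_k g_k` are related by a formal change of the
coordinates which is linear and invertible in the `(y, z)` (`S_ALG`, `S_LIN`). So the roots which are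
forced by all functional equations are invariants of the formal germ. For a cone, a functional
equation of `I` gives one of the dehomogenized ideals at all points of `Pⁿ` (`functionalEq_deh`,
`S_TRA`), and a functional equation at the origin of an ideal generated by forms gives a global one;
the denominator of the exceptional divisor of the blow-up of the origin belongs to a root
(`generic_root`). For a monomial ideal, the denominators of the zeta function belong to the rays of
the normal fan of the Newton polyhedron (`S_DEN`; rationality is applied to the ideal
`I + (z)`, which gives the series of the volumes of `ord I ≥ e`), and for a ray `a` the number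
`- ∑ a_i / N(a)` is a forced root, which is seen from the coefficient of `x ^ (-1, …, -1)`
(`S_MRT`). For a semi-quasihomogeneous ideal of finite colength the exceptional divisor of the
weighted blow-up is a Rees divisor (`semi_main`, by helper97). -/

namespace Pool.Agent.Results.MP_4e5fcd_ag.FormalIsomorphismsAndCones

open MvPolynomial Pool.Agent.W574.MO Pool.Agent.W574.RO Pool.Agent.W574.CN Pool.Agent.Y229
  Pool.Agent.NH52.CI

/-- **The motivic monodromy conjecture at the origin, in the strong form, for the ideals of the
class `CL`.** (1) Let `I = (f_j)` be the ideal of the family `A`, in `N` variables, let its germ at the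
origin be in the class `CL`, and let `Z` be its local motivic zeta function at the origin, normalized
such that the arcs with the origin `0` have the volume `1`. Then `L⁻ᴺ Z` lies in the ring generated by
`M[T]` and the series `1 / (1 - L⁻ᵐ Tᵃ)`, `a, m ≥ 1`, such that `-m/a` is a root of all the polynomials
`b` which satisfy the functional equation of Budur, Mustata and Saito for `f_1, ..., f_r` with
differential operators with formal power series coefficients at the origin (`IsLocalBI`), in
particular of the local Bernstein-Sato polynomial of the ideal `I` at the origin.

(2) Let `f_1, …, f_r` be forms of degree `d > 0` in `n + 1` variables, `n + 1` of which are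
algebraically independent. Let there be points `p_t` (in the charts `x_(i_t) = 1`) at which the ideal
sheaf of the `f_j` on `Pⁿ` is in formal coordinates the `k_t`-th power of the ideal of the first `c_t`
coordinates (`IsFat`). Then `-(n + 1) / d` and all `-c_t / k_t` are roots of all these `b`. If `w₀` is the
class of the set of the points of `Pⁿ` outside the base locus, and `w_t` the class of a subset of the
base locus on which the ideal sheaf is of the type `(c_t, k_t)`, then the germ of `I` at the origin, with
its zeta function, is in the class `CL`, so that its poles are among these numbers. -/
theorem result {M : Type} [CommRing M] (L : Mˣ) :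
    (∀ (A : Fam) (Z : PowerSeries M), CL L A Z →
      PowerSeries.C ((L⁻¹ ^ Nat.card A.σ : Mˣ) : M) * Z ∈
        DenRing L (fun a m => ∀ b : Polynomial ℂ, IsLocalBI A.f b →
          b.eval (-(m : ℂ) / a) = 0)) ∧
    ∀ (n r : ℕ) (f : Fin r → MvPolynomial (Fin (n + 1)) ℂ) (d : ℕ), 0 < d →
      (∀ j, (f j).IsHomogeneous d) →
      ∀ e : Fin (n + 1) → Fin r, (Matrix.of fun s t => pderiv s (f (e t))).det ≠ 0 →
      ∀ (m : ℕ) (i : Fin m → Fin (n + 1)) (p : Fin m → Fin n → ℂ) (c k : Fin m → ℕ),
      (∀ t, 1 ≤ c t) → (∀ t, 1 ≤ k t) →
      (∀ t, IsFat (fun j => tr (p t) (deh (i t) (f j))) (c t) (k t)) →
      (∀ b : Polynomial ℂ, IsLocalBI f b → b.eval (-((n + 1 : ℕ) : ℂ) / d) = 0 ∧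
        ∀ t, b.eval (-(c t : ℂ) / k t) = 0) ∧
      ∀ (w₀ : M) (w : Fin m → M), w₀ + ∑ t, w t = ∑ k ∈ Finset.range (n + 1), (L : M) ^ k →
        CL L ⟨Fin (n + 1), Fin r, f⟩ ((PowerSeries.C w₀ + ∑ t, PowerSeries.C (w t) *
          (PowerSeries.C (∑ i ∈ Finset.range (c t), (L : M) ^ i) * mf L (k t) (c t))) *
            mf L d (n + 1)) :=
  ⟨fun A Z h => cl_ideal t_DROP t_ADD t_UNI t_STR t_LIN t_FOR t_ALG t_TRA
      (t_DEN t_COM t_RAY) t_MRT A Z h _,
    fun n r f d hd hf e he m i p c k hc hk hfat => cone_fat t_DROP t_ADD t_UNI t_STR t_LIN t_FOR
      t_ALG t_TRA t_FAT n r f d hd hf e he m i p c k hc hk hfat⟩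

end Pool.Agent.Results.MP_4e5fcd_ag.FormalIsomorphismsAndCones
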