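import Pool.Agent.NH97.MI.Asm3
import Pool.Agent.NH97.MI.PHI
import Pool.Agent.NH97.MI.RED2
import Pool.Agent.NH97.MI.DRV2
import Pool.Agent.NH97.MI.LIN
import Pool.Agent.NH97.MI.FAC2
import Pool.Agent.NH97.MI.ARC
import Pool.Agent.NH97.MI.SUB
import Pool.Agent.NH97.MI.REN
import Pool.Agent.NH52.CI.Com
import Pool.Agent.NH52.CI.Ray
import Pool.Agent.NH52.CI.Den

set_option autoImplicit false

/-! # The motivic monodromy conjecture at the origin for the ideals with a monomial integral closure

Let `I = (f_1, …, f_r)` be an ideal of `ℂ[x₀, …, xₙ]` whose integral closure in the local ring at the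
origin is generated by monomials. So there is a monomial ideal `J = (x ^ (m_1), …, x ^ (m_s))`, `s > 0`,
such that `I ⊆ J` and such that every `x ^ (m_k)` is integral over `I` in the local ring at the origin
(`IntegralAt`): `I` is a reduction of `J`. The `f_j` are arbitrary otherwise; `I` need not be of finite
colength. For example the `f_j` may be `n + 1` general linear combinations of the `x ^ (m_k)`; or
polynomials without terms of weighted degree less than `d`, whose weighted homogeneous components
of degree `d` have no common zero outside the origin (semi-quasihomogeneous ideals), where the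
Newton polyhedron has one compact facet.

(1) The orders of `I` and `J` along all arcs with the origin `0` agree. So the local motivic zeta
function `Z` of `I` at the origin, `∫ T ^ (ord I) dμ` over these arcs, is determined by the Newton
polyhedron of `J`: it is `L⁻⁽ⁿ⁺¹⁾ ∑_e (V_e - V_(e+1)) T ^ e`, where `V_e = mvol L m e` is the volume of the
set of the arcs with the origin `0` and `ord J ≥ e`, normalised such that the set of all these arcs has
the volume `1`. Here `M` is any commutative ring with a unit `L`, for instance the Grothendieck ring
of the varieties, localised at the class of the line.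

(2) `Z` lies in the ring generated by `M[T]` and the `1 / (1 - L⁻ᵛ T ^ N)`, `N > 0`, `(N, v) = (a(J), ∑ a_i)`
for the rays `a` of the normal fan of the Newton polyhedron of `J`, `a(J) = min_k ⟨a, m_k⟩`.

(3) For all rays `a` with `a(J) > 0` the number `- ∑ a_i / a(J)` is a root of all polynomials `b` which
satisfy the functional equation of Budur, Mustata and Saito for `f_1, …, f_r` with differential
operators with formal power series coefficients at the origin, in particular of the local
Bernstein-Sato polynomial `b_I` of `I` at the origin. The polynomial `b_I` is NOT determined by the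
integral closure of `I`.

Method. (2) is the rationality theorem for monomial ideals (`t_DEN`, helper52's project CI). (3): let
`a` be a ray, and `g_j` the initial forms of weight `a(J)` of the `f_j`. The monomials `x ^ (m_k)` on
the facet are algebraic over the algebra generated by the `g_j` and the `x_t` with `a_t = 0`: the
equation of integral dependence is homogenised by `x_i ↦ t ^ (a_i) x_i` (`t_PHI`, `t_RED2`). If the
Jacobian determinants of all `n + 1` of the `g_j` and `x_t g_j` vanished, there would be a derivation
`D ≠ 0` which is zero on these forms (`t_LIN`), so that `D g_j = 0`, `D x_t = 0`; hence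
`D (x ^ (m_k)) = 0` on the facet (`t_DRV2`), and then `D = 0` as the exponents on the facet span the
quotient (`t_FAC2`). So `n + 1` of the `g_j` and `x_t g_j` are algebraically independent. The polynomials
`f_j` and `x_t f_j` generate the same ideal, and so they have the same forced roots (`sf_same`); their
functional equation, lifted to a chart of the weighted blow-up at a general point of the
exceptional divisor over the centre `x_i = 0`, `a_i > 0`, where the ideal is the power of a coordinate
times an ideal generated by a unit, gives the root (`sf_weight`). -/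

namespace Pool.Agent.Results.MP_4e5fcd_ag.MonomialIntegralClosure

open MvPolynomial Pool.Agent.W574.MO Pool.Agent.W574.SM Pool.Agent.W574.RO Pool.Agent.Y229
  Pool.Agent.NH97.MI
open Pool.Agent.W426.SM (gord IsRay)
open Pool.Agent.NH52.CI (mvol t_DEN t_COM t_RAY tail_mono)

/-- `(N, ν)` are the numerical data of a ray `a` of the normal fan of the Newton polyhedron of the
ideal `(x ^ (m_k))`: `N = min_k ⟨a, m_k⟩`, `ν = ∑ a_i` -/
def RayData {n s : ℕ} (m : Fin s → Fin n → ℕ) (N ν : ℕ) : Prop :=
  ∃ a : Fin n → ℕ, IsRay m a ∧ N = gord m a ∧ ν = ∑ i, a i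

/-- **The motivic monodromy conjecture at the origin, in the strong form, for the ideals with a
monomial integral closure.** -/
theorem result {n r s : ℕ} (f : Fin r → MvPolynomial (Fin (n + 1)) ℂ)
    (m : Fin s → Fin (n + 1) → ℕ) (hs : 0 < s)
    -- `I = (f_j)` is contained in `J = (x ^ (m_k))`
    (hI : ∀ j, f j ∈ Ideal.span (Set.range fun k => mon (m k)))
    -- `J` is integral over `I` in the local ring at the origin
    (hJ : ∀ k, IntegralAt (Ideal.span (Set.range f)) (mon (m k))) :
    -- (1) the orders along the arcs with the origin `0`
    (∀ γ : Fin (n + 1) → PowerSeries ℂ, (∀ i, PowerSeries.constantCoeff (γ i) = 0) → ∀ e : ℕ,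
      ((∀ j, (PowerSeries.X : PowerSeries ℂ) ^ e ∣ aeval γ (f j)) ↔
        ∀ k, (PowerSeries.X : PowerSeries ℂ) ^ e ∣ aeval γ (mon (m k)))) ∧
    -- (2) the local motivic zeta function
    (∀ {M : Type} [CommRing M] (L : Mˣ),
      PowerSeries.C ((L⁻¹ ^ (n + 1) : Mˣ) : M) *
        PowerSeries.mk (fun e => mvol L m e - mvol L m (e + 1)) ∈ DenRing L (RayData m)) ∧
    -- (3) the roots
    ∀ N ν : ℕ, RayData m N ν → 0 < N → ∀ b : Polynomial ℂ, IsLocalBI f b →
      b.eval (-(ν : ℂ) / N) = 0 := by
  classical
  refine ⟨fun γ hγ e => ⟨fun h k => ?_, fun h j => ?_⟩, fun {M} _ L => ?_, ?_⟩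
  · refine t_ARC _ _ (hJ k) γ hγ e fun g hg => ?_
    have h1 : Ideal.span (Set.range f) ≤
        (Ideal.span {(PowerSeries.X : PowerSeries ℂ) ^ e}).comap (aeval γ) := by
      rw [Ideal.span_le]
      rintro _ ⟨j, rfl⟩
      exact Ideal.mem_span_singleton.2 (h j)
    exact Ideal.mem_span_singleton.1 (h1 hg)
  · have h1 : Ideal.span (Set.range fun k => mon (m k)) ≤
        (Ideal.span {(PowerSeries.X : PowerSeries ℂ) ^ e}).comap (aeval γ) := by
      rw [Ideal.span_le]
      rintro _ ⟨k, rfl⟩
      exact Ideal.mem_span_singleton.2 (h k)
    exact Ideal.mem_span_singleton.1 (h1 (hI j))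
  · refine (DenRing L _).mul_mem (C_mem _) (mem_of_tail (c := 1) ?_)
    rw [tail_mono]
    exact t_DEN t_COM t_RAY L m hs
  · rintro N ν ⟨a, ha, rfl, rfl⟩ hN b hb
    exact SF.localBI (mi_main2 t_PHI (t_RED2 t_PHI) t_DRV2 t_LIN t_FAC2 (t_SUB t_PHI) t_REN f m hs
      hI hJ a ha hN) b hb

end Pool.Agent.Results.MP_4e5fcd_ag.MonomialIntegralClosure
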