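import Pool.Agent.NH52.WC.Main
import Pool.Agent.NH52.WC.Sli
import Pool.Agent.NH52.WC.Orb
import Pool.Agent.NH52.WC.Ser
import Pool.Agent.NH52.CI.Drop
import Pool.Agent.NH52.CI.Add
import Pool.Agent.NH52.CI.Uni
import Pool.Agent.NH52.CI.Str
import Pool.Agent.NH52.CI.Lin
import Pool.Agent.NH52.CI.For
import Pool.Agent.NH52.CI.Alg
import Pool.Agent.NH52.CI.Com
import Pool.Agent.NH52.CI.Ray
import Pool.Agent.NH52.CI.Den
import Pool.Agent.NH52.CI.Mrt
import Pool.Agent.NH52.CI.Fat

set_option autoImplicit false

/-! # The motivic monodromy conjecture at the origin: weighted cones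

Let `I` be generated by weighted homogeneous polynomials `f_j` of degree `d`, for positive weights
`w_i`, `n + 1` of which are algebraically independent. They define an ideal sheaf on the weighted
projective space `P(w)`. Suppose that its zero locus, the base locus, is contained in the set of the
points with a trivial isotropy group (`gcd {w_i : p_i ≠ 0} = 1`). Then a slice `x_i = p_i` through a
point `p` of the base locus, `p_i ≠ 0`, is a chart of `P(w)`, and the germ of `I` at `p` is the product of
a line and of the germ of the slice, an ideal in one variable less.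

The theorem is the motivic monodromy conjecture at the origin for `I`, in the strong form, if the
germs of the slices are in the class `CL` of the file `FormalIsomorphismsAndCones`, for example if the
base scheme is smooth, or fat along smooth subvarieties, or locally in formal coordinates monomial,
or has isolated semi-quasihomogeneous points. The cones of that file are the case in which all the
weights are `1`.

For example, let `C` be the monomial curve `(t ^ (w_0), …, t ^ (w_n))`, `gcd = 1`, and let `I` be generated
by all the binomials of the weighted degree `d` which vanish on `C`, where `d` is a large common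
multiple of the weights. Then the base scheme is the reduced point `(1 : … : 1)` of `P(w)`; the poles of
the zeta function of `I` are `- (∑ w_i) / d` and `- n`, and the theorem says that they are roots of the
Bernstein-Sato polynomial.

Method. If `q = λ p` (`λ ≠ 0`, action with the weights `w`) then in the formal coordinates
`x_k = λ ^ (w_k) (1 + τ) ^ (w_k) (p_k + y_k)` at `q` the ideal is the ideal of the slice at `p` (`t_ORB`);
`q` can be chosen near the origin. So the roots which are forced for the germ of the slice are forced
for the germ of `I` at the origin (`sf_wpoint`). The exceptional divisor of the weighted blow-up of the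
origin belongs to the root `- (∑ w_i) / d` (`semi_root`, by helper97). The zeta function: the arcs
`x_i = t ^ (k w_i) y_i` such that `y(0)` is a point of the cone over a subset `S` of the free part of
`P(w)` have the volume `(L - 1) [S] L ^ (- k ∑ w_i)`. -/

namespace Pool.Agent.Results.MP_4e5fcd_ag.WeightedCones

open MvPolynomial Pool.Agent.W574.MO Pool.Agent.W574.RO Pool.Agent.W574.CN Pool.Agent.Y229
  Pool.Agent.NH52.CI Pool.Agent.NH52.WC

/-- **The motivic monodromy conjecture at the origin, in the strong form, for weighted cones.** Let
`f_1, …, f_r` be weighted homogeneous polynomials of degree `d > 0` in `x_0, …, x_n`, for the weights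
`w_i ≥ 1`, `n + 1` of which are algebraically independent (their Jacobian determinant is not zero).

(1) Suppose that their common zeros `q ≠ 0` have a trivial isotropy group: the greatest common divisor
of the `w_i` with `q_i ≠ 0` is `1`. Let the zero locus in the weighted projective space `P(w)` be the
disjoint union of locally closed subsets `S_t` with the classes `v_t`, such that the germs of the
slices `x_(i_t) = p_(i_t)` at the points `p` over `S_t` have the zeta function `Z_t`, and let the germ at
one of them, `p_t`, be in the class `CL`. Then the local motivic zeta function of the ideal at the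
origin is `Z = Z₀ + ∑_t v_t (Z_t - 1) (L - 1) L^(-|w|) T^d / (1 - L^(-|w|) T^d)`, where `|w| = ∑ w_i` and
`Z₀` is the zeta function of an ideal of this type without base points (`wser`), normalized such that
the arcs with the origin `0` have the volume `1`. The theorem says that `L⁻ⁿ⁻¹ Z` lies in the ring
generated by `M[T]` and the series `1 / (1 - L⁻ᵐ Tᵃ)`, `a, m ≥ 1`, such that `-m/a` is a root of all the
polynomials `b` which satisfy the functional equation of Budur, Mustata and Saito for
`f_1, ..., f_r` with differential operators with formal power series coefficients at the origin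
(`IsLocalBI`), in particular of the local Bernstein-Sato polynomial of the ideal at the origin.

(2) `- |w| / d` is a root of all these `b`.

(3) Let `p` be any point with `p_i ≠ 0`, at which the slice is in formal coordinates the `k`-th power of
the ideal of the first `c` coordinates (`IsFat`), `c, k ≥ 1`. Then `- c / k` is a root of all these `b`.
The germ of the slice is in the class `CL`, with the zeta function
`(1 + L + … + L^(c - 1)) (L - 1) L⁻ᶜ Tᵏ / (1 - L⁻ᶜ Tᵏ)`. -/
theorem result {M : Type} [CommRing M] (L : Mˣ) (n r : ℕ)
    (f : Fin r → MvPolynomial (Fin (n + 1)) ℂ) (w : Fin (n + 1) → ℕ) (hw : ∀ i, 1 ≤ w i)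
    (d : ℕ) (hd : 0 < d) (hf : ∀ j, (f j).IsWeightedHomogeneous w d)
    (e : Fin (n + 1) → Fin r) (he : (Matrix.of fun s t => pderiv s (f (e t))).det ≠ 0) :
    ((∀ q : Fin (n + 1) → ℂ, q ≠ 0 → (∀ j, eval q (f j) = 0) →
        ∀ g : ℕ, (∀ i, q i ≠ 0 → g ∣ w i) → g = 1) →
      ∀ (m : ℕ) (i : Fin m → Fin (n + 1)) (p : Fin m → Fin (n + 1) → ℂ), (∀ t, p t (i t) ≠ 0) →
      ∀ (v : Fin m → M) (Z : Fin m → PowerSeries M),
      (∀ t, CL L ⟨Fin n, Fin r, fun j => slice (i t) (p t) (f j)⟩ (Z t)) →
      PowerSeries.C ((L⁻¹ ^ (n + 1) : Mˣ) : M) *
          (wser L w d + ∑ t, PowerSeries.C (v t) * (Z t - 1) * mf L d (∑ i, w i)) ∈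
        DenRing L (fun a m => ∀ b : Polynomial ℂ, IsLocalBI f b → b.eval (-(m : ℂ) / a) = 0)) ∧
    (∀ b : Polynomial ℂ, IsLocalBI f b → b.eval (-((∑ i, w i : ℕ) : ℂ) / d) = 0) ∧
    ∀ (i : Fin (n + 1)) (p : Fin (n + 1) → ℂ), p i ≠ 0 → ∀ c k : ℕ, 1 ≤ c → 1 ≤ k →
      IsFat (fun j => slice i p (f j)) c k →
      (∀ b : Polynomial ℂ, IsLocalBI f b → b.eval (-(c : ℂ) / k) = 0) ∧
      CL L ⟨Fin n, Fin r, fun j => slice i p (f j)⟩
        (PowerSeries.C (∑ i ∈ Finset.range c, (L : M) ^ i) * mf L k c) :=
  ⟨fun _ m i p hp v Z hZ => wcone_mem t_DROP t_ADD t_UNI t_STR t_LIN t_FOR t_ALG t_TRA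
      (t_DEN t_COM t_RAY) t_MRT t_SLI t_ORB t_SER w hw d hd f hf e he m i p hp v Z hZ _,
    fun b hb => (sf_worigin w hw d hd f hf e he).localBI b hb,
    fun i p hp c k hc hk hfat => ⟨fun b hb => wfat_root t_DROP t_ADD t_UNI t_STR t_LIN t_FOR t_ALG
      t_FAT t_SLI t_ORB w hw d f hf i p hp c k hc hk hfat b hb,
      fat_mem t_FAT _ c k hc hk hfat⟩⟩

end Pool.Agent.Results.MP_4e5fcd_ag.WeightedCones
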